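import Pool.Agent.H77.EA.Targets3

/-!
# MP_657073_al, module XI: restriction of the linear characters
-/

open scoped Classical ComplexConjugate

namespace Pool.Agent.H85.EA

open AMc AMe

namespace XI

variable {Γ : Type} [Group Γ]

lemma one_of (X K : Subgroup Γ) (γ : Γ) {μ : Γ → ℂ} (h : μ ∈ LinF X K γ) : μ 1 = 1 :=
  h.2.1 1 K.one_mem

lemma pow_of {X K : Subgroup Γ} {γ : Γ} {μ : Γ → ℂ} (h : μ ∈ LinF X K γ) {x : Γ} (hx : x ∈ X)
    (n : ℕ) : μ (x ^ n) = μ x ^ n := by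
  induction n with
  | zero => rw [pow_zero, pow_zero, one_of X K γ h]
  | succ n ih => rw [pow_succ, pow_succ, h.2.2.1 _ (X.pow_mem hx n) _ hx, ih]

variable [Fintype Γ]

lemma finite_linF (X K : Subgroup Γ) (γ : Γ) : (LinF X K γ).Finite := by
  have hS : {z : ℂ | z = 0 ∨ z ^ Fintype.card Γ = 1}.Finite := by
    have h1 : {z : ℂ | z ^ Fintype.card Γ = 1} ⊆
        ((Polynomial.nthRoots (Fintype.card Γ) (1 : ℂ)).toFinset : Set ℂ) := by
      intro z hz
      rw [Finset.mem_coe, Multiset.mem_toFinset, Polynomial.mem_nthRoots Fintype.card_pos]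
      exact hz
    exact (Set.finite_singleton (0 : ℂ)).union ((Finset.finite_toSet _).subset h1)
  refine (Set.Finite.pi' (fun _ : Γ => hS)).subset ?_
  intro μ hμ g
  by_cases hg : g ∈ X
  · right
    rw [← pow_of hμ hg, pow_card_eq_one, one_of X K γ hμ]
  · left
    exact hμ.1 g hg

lemma nonempty_linF (X K : Subgroup Γ) (γ : Γ) (hKX : K ≤ X) (hX : Nm γ X) :
    (LinF X K γ).Nonempty := by
  refine ⟨fun g => if g ∈ X then 1 else 0, ?_, ?_, ?_, ?_⟩
  · intro g hg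
    exact if_neg hg
  · intro k hk
    exact if_pos (hKX hk)
  · intro x hx y hy
    show (if x * y ∈ X then (1 : ℂ) else 0) = (if x ∈ X then (1 : ℂ) else 0) *
      (if y ∈ X then (1 : ℂ) else 0)
    rw [if_pos (X.mul_mem hx hy), if_pos hx, if_pos hy, one_mul]
  · intro g hg
    show (if γ * g * γ⁻¹ ∈ X then (1 : ℂ) else 0) = (if g ∈ X then (1 : ℂ) else 0)
    rw [if_pos hg, if_pos ((hX g).2 hg)]

/-- the value does not depend on the choice of `k` -/
lemma indep {X K X' K' : Subgroup Γ} {γ : Γ} (hK' : K' = K ⊓ X') (hX' : X' ≤ X)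
    {μ : Γ → ℂ} (h : μ ∈ LinF X' K' γ) {x k l : Γ} (hk : k ∈ K) (hl : l ∈ K)
    (hkx : k * x ∈ X') (hlx : l * x ∈ X') : μ (k * x) = μ (l * x) := by
  have e : k * x = (k * l⁻¹) * (l * x) := by group
  have m1 : k * l⁻¹ ∈ X' := by
    have : k * l⁻¹ = (k * x) * (l * x)⁻¹ := by group
    rw [this]
    exact X'.mul_mem hkx (X'.inv_mem hlx)
  have m2 : k * l⁻¹ ∈ K' := by
    rw [hK']
    exact ⟨K.mul_mem hk (K.inv_mem hl), m1⟩
  rw [e, h.2.2.1 _ m1 _ hlx, h.2.1 _ m2, one_mul]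

end XI

open XI in
theorem xi : T_XI := by
  intro Γ _ _ X K X' K' γ hKX hnor hX'X hK' hfr hKγ hXγ hX'γ
  refine ⟨?_, (Set.ncard_pos (finite_linF X K γ)).2 (nonempty_linF X K γ hKX hXγ)⟩
  have hK'K : K' ≤ K := by rw [hK']; exact inf_le_left
  have hK'X' : K' ≤ X' := by rw [hK']; exact inf_le_right
  refine Set.ncard_congr (fun μ _ => fun g => if g ∈ X' then μ g else 0) ?_ ?_ ?_
  · intro μ hμ
    refine ⟨?_, ?_, ?_, ?_⟩
    · intro g hg
      exact if_neg hg
    · intro k hk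
      show (if k ∈ X' then μ k else 0) = 1
      rw [if_pos (hK'X' hk)]
      exact hμ.2.1 k (hK'K hk)
    · intro x hx y hy
      show (if x * y ∈ X' then μ (x * y) else 0) = (if x ∈ X' then μ x else 0) *
        (if y ∈ X' then μ y else 0)
      rw [if_pos (X'.mul_mem hx hy), if_pos hx, if_pos hy]
      exact hμ.2.2.1 x (hX'X hx) y (hX'X hy)
    · intro g hg
      show (if γ * g * γ⁻¹ ∈ X' then μ (γ * g * γ⁻¹) else 0) = (if g ∈ X' then μ g else 0)
      rw [if_pos hg, if_pos ((hX'γ g).2 hg)]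
      exact hμ.2.2.2 g (hX'X hg)
  · intro μ ν hμ hν h
    funext g
    by_cases hg : g ∈ X
    · obtain ⟨k, hk, hkg⟩ := hfr g hg
      have h1 := congrFun h (k * g)
      simp only [if_pos hkg] at h1
      rw [hμ.2.2.1 k (hKX hk) g hg, hν.2.2.1 k (hKX hk) g hg, hμ.2.1 k hk, hν.2.1 k hk,
        one_mul, one_mul] at h1
      exact h1
    · rw [hμ.1 g hg, hν.1 g hg]
  · intro μ' hμ'
    have hch : ∀ x : Γ, ∃ k : Γ, x ∈ X → k ∈ K ∧ k * x ∈ X' := by
      intro x
      by_cases hx : x ∈ X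
      · obtain ⟨k, hk, hkx⟩ := hfr x hx
        exact ⟨k, fun _ => ⟨hk, hkx⟩⟩
      · exact ⟨1, fun h => absurd h hx⟩
    choose κ hκ using hch
    have hval : ∀ x ∈ X, ∀ k ∈ K, k * x ∈ X' → μ' (κ x * x) = μ' (k * x) := by
      intro x hx k hk hkx
      exact indep hK' hX'X hμ' (hκ x hx).1 hk (hκ x hx).2 hkx
    have hmem : (fun g => if g ∈ X then μ' (κ g * g) else 0) ∈ LinF X K γ := by
      refine ⟨?_, ?_, ?_, ?_⟩
      · intro g hg
        exact if_neg hg
      · intro k hk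
        show (if k ∈ X then μ' (κ k * k) else 0) = 1
        rw [if_pos (hKX hk), hval k (hKX hk) k⁻¹ (K.inv_mem hk)
          (by rw [inv_mul_cancel]; exact X'.one_mem), inv_mul_cancel]
        exact hμ'.2.1 1 K'.one_mem
      · intro x hx y hy
        show (if x * y ∈ X then μ' (κ (x * y) * (x * y)) else 0) =
          (if x ∈ X then μ' (κ x * x) else 0) * (if y ∈ X then μ' (κ y * y) else 0)
        rw [if_pos (X.mul_mem hx hy), if_pos hx, if_pos hy]
        have e : (κ x * x) * (κ y * y) = (κ x * (x * κ y * x⁻¹)) * (x * y) := by group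
        have m1 : κ x * (x * κ y * x⁻¹) ∈ K :=
          K.mul_mem (hκ x hx).1 (hnor x hx _ (hκ y hy).1)
        have m2 : (κ x * (x * κ y * x⁻¹)) * (x * y) ∈ X' := by
          rw [← e]
          exact X'.mul_mem (hκ x hx).2 (hκ y hy).2
        rw [hval (x * y) (X.mul_mem hx hy) _ m1 m2, ← e]
        exact hμ'.2.2.1 _ (hκ x hx).2 _ (hκ y hy).2
      · intro g hg
        show (if γ * g * γ⁻¹ ∈ X then μ' (κ (γ * g * γ⁻¹) * (γ * g * γ⁻¹)) else 0) =
          (if g ∈ X then μ' (κ g * g) else 0)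
        rw [if_pos hg, if_pos ((hXγ g).2 hg)]
        have e : (γ * κ g * γ⁻¹) * (γ * g * γ⁻¹) = γ * (κ g * g) * γ⁻¹ := by group
        have m2 : (γ * κ g * γ⁻¹) * (γ * g * γ⁻¹) ∈ X' := by
          rw [e]
          exact (hX'γ _).2 (hκ g hg).2
        rw [hval _ ((hXγ g).2 hg) _ ((hKγ _).2 (hκ g hg).1) m2, e]
        exact hμ'.2.2.2 _ (hκ g hg).2
    refine ⟨_, hmem, ?_⟩
    funext g
    show (if g ∈ X' then (if g ∈ X then μ' (κ g * g) else 0) else 0) = μ' g
    by_cases hg : g ∈ X'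
    · rw [if_pos hg, if_pos (hX'X hg), hval g (hX'X hg) 1 K.one_mem (by rwa [one_mul]), one_mul]
    · rw [if_neg hg]
      exact (hμ'.1 g hg).symm

end Pool.Agent.H85.EA
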