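import Pool.Agent.H77.EA.Targets3

/-!
# MP_657073_al, module XJ: the number of `γ`-invariant extensions
-/

open scoped Classical ComplexConjugate

namespace Pool.Agent.H85.EA

open AMc AMe

namespace XJ

variable {Γ : Type} [Group Γ] [Fintype Γ]

/-- the homomorphisms from `X` to `ℂˣ` trivial on `K` -/
def LL (X K : Subgroup Γ) : Subgroup (X →* ℂˣ) where
  carrier := {f | ∀ k : X, (k : Γ) ∈ K → f k = 1}
  one_mem' := fun _ _ => rfl
  mul_mem' := by
    intro a b ha hb k hk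
    rw [MonoidHom.mul_apply, ha k hk, hb k hk, one_mul]
  inv_mem' := by
    intro a ha k hk
    rw [MonoidHom.inv_apply, ha k hk, inv_one]

/-- extension by zero -/
noncomputable def ex (X : Subgroup Γ) (f : X →* ℂˣ) : Γ → ℂ :=
  fun g => if h : g ∈ X then ((f ⟨g, h⟩ : ℂˣ) : ℂ) else 0

lemma ex_mem (X : Subgroup Γ) (f : X →* ℂˣ) {g : Γ} (h : g ∈ X) :
    ex X f g = ((f ⟨g, h⟩ : ℂˣ) : ℂ) := dif_pos h

lemma ex_not (X : Subgroup Γ) (f : X →* ℂˣ) {g : Γ} (h : g ∉ X) : ex X f g = 0 := dif_neg h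

lemma ex_one (X : Subgroup Γ) (f : X →* ℂˣ) : ex X f 1 = 1 := by
  rw [ex_mem X f X.one_mem]
  have : (⟨1, X.one_mem⟩ : X) = 1 := rfl
  rw [this, map_one, Units.val_one]

lemma ex_mul (X : Subgroup Γ) (f : X →* ℂˣ) {x y : Γ} (hx : x ∈ X) (hy : y ∈ X) :
    ex X f (x * y) = ex X f x * ex X f y := by
  rw [ex_mem X f (X.mul_mem hx hy), ex_mem X f hx, ex_mem X f hy, ← Units.val_mul, ← map_mul]
  rfl

lemma ex_hmul (X : Subgroup Γ) (f h : X →* ℂˣ) (g : Γ) :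
    ex X (f * h) g = ex X f g * ex X h g := by
  by_cases hg : g ∈ X
  · rw [ex_mem X _ hg, ex_mem X _ hg, ex_mem X _ hg, MonoidHom.mul_apply, Units.val_mul]
  · rw [ex_not X _ hg, ex_not X _ hg, zero_mul]

lemma ex_inj (X : Subgroup Γ) {f h : X →* ℂˣ} (e : ∀ g, ex X f g = ex X h g) : f = h := by
  apply MonoidHom.ext
  intro x
  apply Units.ext
  have := e x
  rwa [ex_mem X f x.2, ex_mem X h x.2] at this

lemma ex_lin (X K : Subgroup Γ) (hKX : K ≤ X) {f : X →* ℂˣ} (hf : f ∈ LL X K) :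
    ex X f ∈ LinF X K 1 := by
  refine ⟨fun g hg => ex_not X f hg, ?_, fun x hx y hy => ex_mul X f hx hy, ?_⟩
  · intro k hk
    rw [ex_mem X f (hKX hk), hf ⟨k, hKX hk⟩ hk, Units.val_one]
  · intro g _
    rw [one_mul, inv_one, mul_one]

/-- a homomorphism from a function in `LinF` -/
noncomputable def toHom (X K : Subgroup Γ) (γ : Γ) (μ : Γ → ℂ) (h : μ ∈ LinF X K γ) :
    X →* ℂˣ where
  toFun x := ⟨μ x, μ (x : Γ)⁻¹, by
    rw [← h.2.2.1 _ x.2 _ (X.inv_mem x.2), mul_inv_cancel, h.2.1 1 K.one_mem], by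
    rw [← h.2.2.1 _ (X.inv_mem x.2) _ x.2, inv_mul_cancel, h.2.1 1 K.one_mem]⟩
  map_one' := by
    apply Units.ext
    show μ ((1 : X) : Γ) = 1
    rw [Subgroup.coe_one, h.2.1 1 K.one_mem]
  map_mul' x y := by
    apply Units.ext
    show μ ((x * y : X) : Γ) = μ x * μ y
    rw [Subgroup.coe_mul, h.2.2.1 _ x.2 _ y.2]

lemma toHom_ex (X K : Subgroup Γ) (γ : Γ) (μ : Γ → ℂ) (h : μ ∈ LinF X K γ) :
    ex X (toHom X K γ μ h) = μ := by
  funext g
  by_cases hg : g ∈ X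
  · rw [ex_mem X _ hg]
    rfl
  · rw [ex_not X _ hg, h.1 g hg]

lemma toHom_mem (X K : Subgroup Γ) (γ : Γ) (μ : Γ → ℂ) (h : μ ∈ LinF X K γ) :
    toHom X K γ μ h ∈ LL X K := by
  intro k hk
  apply Units.ext
  show μ (k : Γ) = 1
  exact h.2.1 _ hk

/-- conjugation by `γ` on `X` -/
def cg (X : Subgroup Γ) (γ : Γ) (hX : Nm γ X) : X →* X where
  toFun x := ⟨γ * x * γ⁻¹, (hX _).2 x.2⟩
  map_one' := by
    apply Subtype.ext
    show γ * ((1 : X) : Γ) * γ⁻¹ = 1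
    rw [Subgroup.coe_one, mul_one, mul_inv_cancel]
  map_mul' x y := by
    apply Subtype.ext
    show γ * ((x * y : X) : Γ) * γ⁻¹ = (γ * x * γ⁻¹) * (γ * y * γ⁻¹)
    rw [Subgroup.coe_mul]
    group

/-- precomposition with the conjugation -/
def sg (X K : Subgroup Γ) (γ : Γ) (hX : Nm γ X) (hK : Nm γ K) : LL X K →* LL X K where
  toFun f := ⟨(f : X →* ℂˣ).comp (cg X γ hX), by
    intro k hk
    exact f.2 _ ((hK _).2 hk)⟩
  map_one' := rfl
  map_mul' _ _ := rfl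

lemma sg_ex (X K : Subgroup Γ) (γ : Γ) (hX : Nm γ X) (hK : Nm γ K) (f : LL X K) (g : Γ) :
    ex X (sg X K γ hX hK f : X →* ℂˣ) g = ex X (f : X →* ℂˣ) (γ * g * γ⁻¹) := by
  by_cases hg : g ∈ X
  · rw [ex_mem X _ hg, ex_mem X _ ((hX g).2 hg)]
    rfl
  · rw [ex_not X _ hg, ex_not X _ (fun h => hg ((hX g).1 h))]

lemma cj_iter (γ : Γ) (n : ℕ) (χ : Γ → ℂ) : (cj γ)^[n] χ = cj (γ ^ n) χ := by
  induction n with
  | zero =>
    funext g
    show χ g = χ (γ ^ 0 * g * (γ ^ 0)⁻¹)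
    rw [pow_zero, one_mul, inv_one, mul_one]
  | succ n ih =>
    rw [Function.iterate_succ', Function.comp_apply, ih]
    funext g
    show χ (γ ^ n * (γ * g * γ⁻¹) * (γ ^ n)⁻¹) = χ (γ ^ (n + 1) * g * (γ ^ (n + 1))⁻¹)
    congr 1
    rw [pow_succ]
    group

end XJ

open XJ in
theorem xj (hXG : T_XG) (hXH : T_XH) (hS1 : T_S1) (hS7 : T_S7) : T_XJ := by
  intro ℓ _ Γ _ _ X K γ n hLP hKγ hXγ hγn hn θ hθ hθγ ⟨χ₀, hχ₀, hχ₀θ⟩
  obtain ⟨hKX, hnor, a, ha⟩ := hLP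
  obtain ⟨g1, g2, g3⟩ := hXG Γ X K hKX hnor θ hθ χ₀ hχ₀ hχ₀θ
  -- the torsor
  let T : Type := {χ : Γ → ℂ // χ ∈ IrrS X ∧ ∀ k ∈ K, χ k = θ k}
  have smem : ∀ (f : LL X K) (t : T),
      (fun g => ex X (f : X →* ℂˣ) g * t.1 g) ∈ IrrS X ∧
        ∀ k ∈ K, (fun g => ex X (f : X →* ℂˣ) g * t.1 g) k = θ k := by
    intro f t
    refine ⟨(hXG Γ X K hKX hnor θ hθ t.1 t.2.1 t.2.2).1 _ (ex_lin X K hKX f.2), ?_⟩
    intro k hk
    show ex X (f : X →* ℂˣ) k * t.1 k = θ k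
    rw [(ex_lin X K hKX f.2).2.1 k hk, one_mul, t.2.2 k hk]
  letI act : MulAction (LL X K) T :=
    { smul := fun f t => ⟨fun g => ex X (f : X →* ℂˣ) g * t.1 g, smem f t⟩
      one_smul := by
        intro t
        apply Subtype.ext
        funext g
        show ex X ((1 : LL X K) : X →* ℂˣ) g * t.1 g = t.1 g
        by_cases hg : g ∈ X
        · rw [ex_mem X _ hg]
          show ((1 : ℂˣ) : ℂ) * t.1 g = t.1 g
          rw [Units.val_one, one_mul]
        · rw [(hS1 Γ X t.1 t.2.1).1 g hg, mul_zero]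
      mul_smul := by
        intro f h t
        apply Subtype.ext
        funext g
        show ex X ((f * h : LL X K) : X →* ℂˣ) g * t.1 g =
          ex X (f : X →* ℂˣ) g * (ex X (h : X →* ℂˣ) g * t.1 g)
        rw [Subgroup.coe_mul, ex_hmul, mul_assoc] }
  have smul_val : ∀ (f : LL X K) (t : T) (g : Γ),
      (f • t).1 g = ex X (f : X →* ℂˣ) g * t.1 g := fun _ _ _ => rfl
  -- finiteness
  haveI hfin : Finite (LL X K) := by
    have hinj : Function.Injective (fun f : LL X K => fun x : X =>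
        (⟨(f : X →* ℂˣ) x, by
          rw [mem_rootsOfUnity, ← map_pow, pow_card_eq_one', map_one]⟩ :
          rootsOfUnity (Nat.card X) ℂ)) := by
      intro f h e
      apply Subtype.ext
      apply MonoidHom.ext
      intro x
      exact congrArg Subtype.val (congrFun e x)
    haveI : NeZero (Nat.card X) := ⟨Nat.card_pos.ne'⟩
    exact Finite.of_injective _ hinj
  -- `ℓ`-group
  have hpg : IsPGroup ℓ (LL X K) := by
    intro f
    refine ⟨a, ?_⟩
    apply Subtype.ext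
    apply MonoidHom.ext
    intro x
    haveI : (K.subgroupOf X).Normal := ⟨by
      intro k hk x
      rw [Subgroup.mem_subgroupOf] at hk ⊢
      exact hnor x x.2 _ hk⟩
    have hx : x ^ ℓ ^ a ∈ K.subgroupOf X := by
      rw [← ha]
      exact Subgroup.pow_index_mem (K.subgroupOf X) x
    show ((f : X →* ℂˣ) ^ ℓ ^ a) x = 1
    rw [MonoidHom.pow_apply, ← map_pow]
    exact f.2 _ hx
  have hsim : ∀ t t' : T, ∃! μ : LL X K, μ • t = t' := by
    intro t t'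
    obtain ⟨m1, m2, m3⟩ := hXG Γ X K hKX hnor θ hθ t.1 t.2.1 t.2.2
    obtain ⟨μ, hμ, e⟩ := m2 t'.1 t'.2.1 t'.2.2
    refine ⟨⟨toHom X K 1 μ hμ, toHom_mem X K 1 μ hμ⟩, ?_, ?_⟩
    · apply Subtype.ext
      funext g
      show ex X (toHom X K 1 μ hμ) g * t.1 g = t'.1 g
      rw [toHom_ex, e]
    · intro ν hν
      apply Subtype.ext
      apply ex_inj X
      intro g
      have h2 : ex X (ν : X →* ℂˣ) = μ := by
        apply m3 _ (ex_lin X K hKX ν.2) _ hμ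
        intro g
        rw [← smul_val ν t g, hν, e]
      show ex X (ν : X →* ℂˣ) g = ex X (toHom X K 1 μ hμ) g
      rw [h2, toHom_ex]
  -- the permutation
  have σmem : ∀ t : T, cj γ t.1 ∈ IrrS X ∧ ∀ k ∈ K, cj γ t.1 k = θ k := by
    intro t
    refine ⟨hS7 Γ X X γ (fun g => (hXγ g).symm) t.1 t.2.1, ?_⟩
    intro k hk
    show t.1 (γ * k * γ⁻¹) = θ k
    rw [t.2.2 _ ((hKγ k).2 hk)]
    exact congrFun hθγ k
  let σ : T → T := fun t => ⟨cj γ t.1, σmem t⟩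
  have hσ : ∀ (m : ℕ) (t : T), (σ^[m] t).1 = (cj γ)^[m] t.1 := by
    intro m
    induction m with
    | zero => intro t; rfl
    | succ m ih =>
      intro t
      rw [Function.iterate_succ, Function.comp_apply, ih, Function.iterate_succ,
        Function.comp_apply]
  have key := hXH ℓ (LL X K) T hpg hsim ⟨⟨χ₀, hχ₀, hχ₀θ⟩⟩ σ (sg X K γ hXγ hKγ) n
    (by
      intro μ t
      apply Subtype.ext
      funext g
      show ex X (μ : X →* ℂˣ) (γ * g * γ⁻¹) * t.1 (γ * g * γ⁻¹) =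
        ex X (sg X K γ hXγ hKγ μ : X →* ℂˣ) g * t.1 (γ * g * γ⁻¹)
      rw [sg_ex])
    (by
      intro t
      apply Subtype.ext
      rw [hσ, cj_iter]
      funext g
      exact (hS1 Γ X t.1 t.2.1).2.1 _ hγn g)
    hn
  have e1 : Nat.card {t // σ t = t} =
      {χ : Γ → ℂ | χ ∈ IrrS X ∧ cj γ χ = χ ∧ ∀ k ∈ K, χ k = θ k}.ncard := by
    rw [← Nat.card_coe_set_eq]
    refine Nat.card_congr ⟨fun t => ⟨t.1.1, t.1.2.1, congrArg Subtype.val t.2, t.1.2.2⟩,
      fun χ => ⟨⟨χ.1, χ.2.1, χ.2.2.2⟩, Subtype.ext χ.2.2.1⟩, fun _ => rfl, fun _ => rfl⟩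
  have e2 : Nat.card {μ // sg X K γ hXγ hKγ μ = μ} = (LinF X K γ).ncard := by
    rw [← Nat.card_coe_set_eq]
    refine Nat.card_congr (Equiv.ofBijective (fun μ => ⟨ex X (μ.1 : X →* ℂˣ), ?_⟩) ⟨?_, ?_⟩)
    · have h1 := ex_lin X K hKX μ.1.2
      refine ⟨h1.1, h1.2.1, h1.2.2.1, ?_⟩
      intro g _
      rw [← sg_ex X K γ hXγ hKγ μ.1 g, μ.2]
    · intro μ ν h
      apply Subtype.ext
      apply Subtype.ext
      exact ex_inj X (fun g => congrFun (congrArg Subtype.val h) g)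
    · intro m
      refine ⟨⟨⟨toHom X K γ m.1 m.2, toHom_mem X K γ m.1 m.2⟩, ?_⟩, ?_⟩
      · apply Subtype.ext
        apply ex_inj X
        intro g
        rw [sg_ex]
        show ex X (toHom X K γ m.1 m.2) (γ * g * γ⁻¹) = ex X (toHom X K γ m.1 m.2) g
        rw [toHom_ex]
        by_cases hg : g ∈ X
        · exact m.2.2.2.2 g hg
        · rw [m.2.1 g hg, m.2.1 _ (fun h => hg ((hXγ g).1 h))]
      · apply Subtype.ext
        exact toHom_ex X K γ m.1 m.2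
  rw [← e1, key, e2]

end Pool.Agent.H85.EA
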