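import Pool.Agent.H77.EA.Targets2
import Pool.Agent.H3.AM.Basic

/-!
# MP_657073_al, module BT: Brauer's first main theorem at the level of types
-/

open scoped Classical ComplexConjugate

namespace Pool.Agent.H85.EA

open AMc AMe Pool.Agent.H77.EA

namespace BT

/-- `𝔸/𝔪` as an abstract field (copy of `AMc.exists_field`) -/
theorem exists_field (ℓ : ℕ) [Fact ℓ.Prime] (𝔪 : Ideal (integralClosure ℤ ℂ))
    (h𝔪 : 𝔪.IsMaximal) (hℓ : (ℓ : integralClosure ℤ ℂ) ∈ 𝔪) :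
    ∃ (F : Type) (_ : Field F) (π : integralClosure ℤ ℂ →+* F),
      Function.Surjective π ∧ RingHom.ker π = 𝔪 ∧ CharP F ℓ := by
  refine ⟨integralClosure ℤ ℂ ⧸ 𝔪, Ideal.Quotient.field 𝔪, Ideal.Quotient.mk 𝔪,
    Ideal.Quotient.mk_surjective, Ideal.mk_ker, ?_⟩
  let _ := Ideal.Quotient.field 𝔪
  rw [CharP.charP_iff_prime_eq_zero Fact.out]
  have : Ideal.Quotient.mk 𝔪 (ℓ : integralClosure ℤ ℂ) = 0 := Ideal.Quotient.eq_zero_iff_mem.2 hℓ
  rw [map_natCast] at this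
  exact this

theorem DefH_congr {Γ : Type} [Group Γ] [Fintype Γ] {F : Type} [Field F] {ℓ : ℕ}
    {N : Subgroup Γ} {h k : MonoidAlgebra F Γ → F} {D : Subgroup Γ}
    (hk : ∀ z ∈ ZA F N N, h z = k z) (hd : DefH ℓ N h D) : DefH ℓ N k D := by
  obtain ⟨h1, h2, ⟨x, hx, h3, h4, h5⟩, h6⟩ := hd
  refine ⟨h1, h2, ⟨x, hx, ?_, h4, h5⟩, fun x hx hne => h6 x hx ?_⟩
  · rw [← hk _ (csum_cls_mem_self hx)]; exact h3
  · rw [hk _ (csum_cls_mem_self hx)]; exact hne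

section

variable {F : Type} [Field F] {π : integralClosure ℤ ℂ →+* F}
  {ℓ : ℕ} [Fact ℓ.Prime] [CharP F ℓ]

/-- the normaliser in the ambient group `G` itself -/
theorem range_eq {G : Type} [Group G] [Fintype G] (D : Subgroup G) :
    ((MonoidHom.id G).comp (Subgroup.normalizer (D : Set G)).subtype).range =
      ⊤ ⊓ Subgroup.normalizer (D : Set G) := by
  rw [MonoidHom.id_comp, Subgroup.range_subtype, top_inf_eq]

theorem map_eq {G : Type} [Group G] (D : Subgroup G) :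
    (D.subgroupOf (Subgroup.normalizer (D : Set G))).map
      ((MonoidHom.id G).comp (Subgroup.normalizer (D : Set G)).subtype) = D := by
  rw [MonoidHom.id_comp, Subgroup.subgroupOf_map_subtype, inf_eq_left]
  exact Subgroup.le_normalizer

theorem range_id {G : Type} [Group G] : (MonoidHom.id G).range = ⊤ :=
  MonoidHom.range_eq_top.2 Function.surjective_id

theorem inj_j {G : Type} [Group G] (D : Subgroup G) :
    Function.Injective ((MonoidHom.id G).comp (Subgroup.normalizer (D : Set G)).subtype) :=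
  Function.injective_id.comp Subtype.val_injective

end

end BT

open BT in
theorem bt (K1 : T_K1) (K2 : T_K2) (B8 : T_B8) (B9 : T_B9) (ST : T_ST) (D5 : T_D5) (B1 : T_B1)
    (KX : T_KX) : T_BT := by
  intro ℓ _ 𝔪 h𝔪 hℓ G _ _ D
  obtain ⟨F, _, π, hπ, rfl, _⟩ := exists_field ℓ 𝔪 h𝔪 hℓ
  set i : Subgroup.normalizer (D : Set G) →* G := (Subgroup.normalizer (D : Set G)).subtype
    with hi
  have hii : Function.Injective i := Subtype.val_injective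
  have hjj := inj_j D
  rw [← hi] at hjj
  have hir : ((MonoidHom.id G).comp i).range = ⊤ ⊓ Subgroup.normalizer (D : Set G) := range_eq D
  have hmap : (D.subgroupOf (Subgroup.normalizer (D : Set G))).map ((MonoidHom.id G).comp i) = D :=
    map_eq D
  have hid : Function.Injective (MonoidHom.id G) := Function.injective_id
  -- dictionary for `G`
  have a1 : ∀ χ : G → ℂ, χ ∈ Irr G ↔ extj (MonoidHom.id G) χ ∈ IrrS ⊤ := fun χ => by
    rw [(K1 G G _ hid).2.1 χ, range_id]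
  have a2 : ∀ θ ∈ IrrS (⊤ : Subgroup G), ∃ χ ∈ Irr G, extj (MonoidHom.id G) χ = θ := fun θ hθ =>
    (K1 G G _ hid).2.2.1 θ (by rw [range_id]; exact hθ)
  have a3 : ∀ χ ∈ Irr G, (IsDefect ℓ (RingHom.ker π) χ D ↔
      DefH ℓ ⊤ (lam π (extj (MonoidHom.id G) χ)) D) := by
    intro χ hχ
    have h := (K2 G G _ hid (RingHom.ker π) ℓ χ D).1
    rw [range_id, Subgroup.map_id] at h
    rw [h]
    exact (B9 F π hπ ℓ G ⊤ _ ((a1 χ).1 hχ)).2.1 D
  have a4 : ∀ χ ∈ Irr G, ∀ χ' ∈ Irr G, (SameBlock (RingHom.ker π) χ χ' ↔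
      Blk π ⊤ (extj (MonoidHom.id G) χ) (extj (MonoidHom.id G) χ')) := by
    intro χ hχ χ' hχ'
    have h := (KX F π hπ ℓ G G _ hid χ hχ D).2.2.1 χ' hχ'
    rw [range_id] at h
    exact h
  -- dictionary for the normaliser
  set J : Subgroup.normalizer (D : Set G) →* G := (MonoidHom.id G).comp i with hJ
  have b1 : ∀ ψ : Subgroup.normalizer (D : Set G) → ℂ,
      ψ ∈ Irr (Subgroup.normalizer (D : Set G)) ↔
        extj J ψ ∈ IrrS (⊤ ⊓ Subgroup.normalizer (D : Set G)) := fun ψ => by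
    rw [(K1 _ G J hjj).2.1 ψ, hir]
  have b2 : ∀ θ ∈ IrrS (⊤ ⊓ Subgroup.normalizer (D : Set G)),
      ∃ ψ ∈ Irr (Subgroup.normalizer (D : Set G)), extj J ψ = θ := fun θ hθ =>
    (K1 _ G J hjj).2.2.1 θ (by rw [hir]; exact hθ)
  have b3 : ∀ ψ ∈ Irr (Subgroup.normalizer (D : Set G)),
      (IsDefect ℓ (RingHom.ker π) ψ (D.subgroupOf (Subgroup.normalizer (D : Set G))) ↔
      DefH ℓ (⊤ ⊓ Subgroup.normalizer (D : Set G)) (lam π (extj J ψ)) D) := by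
    intro ψ hψ
    have h := (K2 _ G J hjj (RingHom.ker π) ℓ ψ
      (D.subgroupOf (Subgroup.normalizer (D : Set G)))).1
    rw [hir, hmap] at h
    rw [h]
    exact (B9 F π hπ ℓ G _ _ ((b1 ψ).1 hψ)).2.1 D
  have b4 : ∀ ψ ∈ Irr (Subgroup.normalizer (D : Set G)),
      ∀ ψ' ∈ Irr (Subgroup.normalizer (D : Set G)), (SameBlock (RingHom.ker π) ψ ψ' ↔
      Blk π (⊤ ⊓ Subgroup.normalizer (D : Set G)) (extj J ψ) (extj J ψ')) := by
    intro ψ hψ ψ' hψ'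
    have h := (KX F π hπ ℓ _ G J hjj ψ hψ
      (D.subgroupOf (Subgroup.normalizer (D : Set G)))).2.2.1 ψ' hψ'
    rw [hir] at h
    exact h
  -- the correspondence
  have c1 : IsPGroup ℓ D → ∀ χ ∈ Irr G, ∀ ψ ∈ Irr (Subgroup.normalizer (D : Set G)),
      (Corr (RingHom.ker π) i χ ψ ↔ Cor π ⊤ D (extj (MonoidHom.id G) χ) (extj J ψ)) := by
    intro hD χ hχ ψ hψ
    have h := (K2 G G _ hid (RingHom.ker π) ℓ χ D).2.2.1 _ i hii ψ
    rw [range_id] at h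
    rw [h]
    exact B8 F π hπ ℓ G ⊤ D hD le_top _ ((a1 χ).1 hχ) _ ((b1 ψ).1 hψ)
  have hST := ST F π hπ ℓ G ⊤ D
  refine ⟨?_, ?_, ?_, ?_⟩
  · intro χ hχ hdef
    have hd := (a3 χ hχ).1 hdef
    obtain ⟨⟨ψ0, hψ0, hcor⟩, huniq⟩ := hST.1 _ ((a1 χ).1 hχ) hd
    obtain ⟨ψ, hψ, rfl⟩ := b2 ψ0 hψ0
    exact ⟨ψ, hχ, hψ, hdef, (b3 ψ hψ).2 (huniq _ hψ0 hcor).1, (c1 hdef.1 χ hχ ψ hψ).2 hcor⟩
  · intro ψ hψ hdef
    have hd := (b3 ψ hψ).1 hdef
    have hDp : IsPGroup ℓ D := hd.1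
    obtain ⟨χ0, hχ0, hcor⟩ := hST.2 hDp le_top _ ((b1 ψ).1 hψ)
    obtain ⟨χ, hχ, rfl⟩ := a2 χ0 hχ0
    have h5 := (D5 F ℓ G ⊤ D hDp le_top _ (B1 F π hπ G _ _ ((b1 ψ).1 hψ)) hd).2
    exact ⟨χ, hχ, hψ, (a3 χ hχ).2 (DefH_congr (fun z hz => (hcor z hz).symm) h5), hdef,
      (c1 hDp χ hχ ψ hψ).2 hcor⟩
  · intro χ ψ hB ψ' hψ'
    obtain ⟨hχ, hψ, hd1, hd2, hcorr⟩ := hB
    have hcor := (c1 hd1.1 χ hχ ψ hψ).1 hcorr
    obtain ⟨-, huniq⟩ := hST.1 _ ((a1 χ).1 hχ) ((a3 χ hχ).1 hd1)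
    have hiff : SameBlock (RingHom.ker π) ψ ψ' ↔ Corr (RingHom.ker π) i χ ψ' := by
      rw [b4 ψ hψ ψ' hψ', c1 hd1.1 χ hχ ψ' hψ',
        (huniq _ ((b1 ψ).1 hψ) hcor).2.1 _ ((b1 ψ').1 hψ')]
    refine ⟨hiff, fun hs => ?_⟩
    have hc' := hiff.1 hs
    exact ⟨hχ, hψ', hd1,
      (b3 ψ' hψ').2 (huniq _ ((b1 ψ').1 hψ') ((c1 hd1.1 χ hχ ψ' hψ').1 hc')).1, hc'⟩
  · intro χ ψ hB χ' hχ'
    obtain ⟨hχ, hψ, hd1, hd2, hcorr⟩ := hB
    have hcor := (c1 hd1.1 χ hχ ψ hψ).1 hcorr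
    have hiff : SameBlock (RingHom.ker π) χ χ' ↔ Corr (RingHom.ker π) i χ' ψ := by
      rw [a4 χ hχ χ' hχ', c1 hd1.1 χ' hχ' ψ hψ]
      constructor
      · intro h z hz
        rw [h z hz]
        exact hcor z hz
      · intro h z hz
        rw [h z hz]
        exact (hcor z hz).symm
    refine ⟨hiff, fun hs => ?_⟩
    have hc' := hiff.1 hs
    have hb := (a4 χ hχ χ' hχ').1 hs
    refine ⟨hχ', hψ, ?_, hd2, hc'⟩
    exact (a3 χ' hχ').2 (DefH_congr (fun z hz => (hb z hz).symm) ((a3 χ hχ).1 hd1))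

end Pool.Agent.H85.EA
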