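import Pool.Agent.H77.EA.Targets2

/-!
# MP_657073_al, module CYT: coloured permutations with the same numbers of fixed points of powers
-/

open scoped Classical

namespace Pool.Agent.H85.EA

namespace CYT

variable {A B T : Type}

lemma per_iff (α : Equiv.Perm A) (a : A) (k : ℕ) :
    (α ^ k) a = a ↔ Function.minimalPeriod α a ∣ k := by
  rw [← Function.isPeriodicPt_iff_minimalPeriod_dvd, Function.IsPeriodicPt, Function.IsFixedPt,
    Equiv.Perm.iterate_eq_pow]

lemma exists_back [Finite A] (α : Equiv.Perm A) (i : ℕ) : ∃ n : ℕ, ∀ a, (α ^ n) ((α ^ i) a) = a := by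
  have hM : 0 < orderOf α := orderOf_pos α
  refine ⟨i * orderOf α - i, fun a => ?_⟩
  rw [← Equiv.Perm.mul_apply, ← pow_add, Nat.sub_add_cancel (Nat.le_mul_of_pos_right i hM),
    mul_comm, pow_mul, pow_orderOf_eq_one, one_pow, Equiv.Perm.one_apply]

lemma pow_eq_pow_iff (α : Equiv.Perm A) (β : Equiv.Perm B) {a : A} {b : B}
    (h : ∀ k : ℕ, (α ^ k) a = a ↔ (β ^ k) b = b) (i j : ℕ) :
    (α ^ i) a = (α ^ j) a ↔ (β ^ i) b = (β ^ j) b := by
  have key : ∀ i j : ℕ, i ≤ j → ((α ^ i) a = (α ^ j) a ↔ (β ^ i) b = (β ^ j) b) := by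
    intro i j hij
    obtain ⟨n, rfl⟩ := Nat.exists_eq_add_of_le hij
    rw [pow_add, pow_add, Equiv.Perm.mul_apply, Equiv.Perm.mul_apply, (α ^ i).injective.eq_iff,
      (β ^ i).injective.eq_iff, eq_comm, h n, eq_comm]
  rcases le_total i j with hij | hij
  · exact key i j hij
  · rw [eq_comm, key j i hij, eq_comm]

/-- a partial solution -/
structure Good (α : Equiv.Perm A) (β : Equiv.Perm B) (c : A → T) (d : B → T) (S : Set A)
    (f : A → B) : Prop where
  inv : ∀ x ∈ S, α x ∈ S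
  inj : Set.InjOn f S
  eqv : ∀ x ∈ S, f (α x) = β (f x)
  col : ∀ x ∈ S, d (f x) = c x

variable {α : Equiv.Perm A} {β : Equiv.Perm B} {c : A → T} {d : B → T} {τ : T → T} {S : Set A}
  {f : A → B}

lemma Good.pow_mem (h : Good α β c d S f) (n : ℕ) {x : A} (hx : x ∈ S) : (α ^ n) x ∈ S := by
  induction n with
  | zero => exact hx
  | succ n ih =>
    rw [pow_succ', Equiv.Perm.mul_apply]
    exact h.inv _ ih

lemma Good.pow_eqv (h : Good α β c d S f) (n : ℕ) {x : A} (hx : x ∈ S) :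
    f ((α ^ n) x) = (β ^ n) (f x) := by
  induction n with
  | zero => rfl
  | succ n ih =>
    rw [pow_succ', Equiv.Perm.mul_apply, h.eqv _ (h.pow_mem n hx), ih, pow_succ',
      Equiv.Perm.mul_apply]

lemma Good.fix_iff (h : Good α β c d S f) (k : ℕ) {x : A} (hx : x ∈ S) :
    (β ^ k) (f x) = f x ↔ (α ^ k) x = x := by
  rw [← h.pow_eqv k hx]
  exact h.inj.eq_iff (h.pow_mem k hx) hx

lemma Good.to_right [Finite A] [Finite B] (h : Good α β c d S f)
    (hn : ∀ (k : ℕ) (v : T), {a | c a = v ∧ (α ^ k) a = a}.ncard =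
      {b | d b = v ∧ (β ^ k) b = b}.ncard) {k : ℕ} {x : A} (hx : x ∉ S) (hk : (α ^ k) x = x) :
    ∃ y, y ∉ f '' S ∧ d y = c x ∧ (β ^ k) y = y := by
  by_contra hno
  push Not at hno
  have h1 : {b | d b = c x ∧ (β ^ k) b = b} ⊆ f '' ({a | c a = c x ∧ (α ^ k) a = a} ∩ S) := by
    rintro y ⟨hy1, hy2⟩
    by_contra hy3
    refine hno y ?_ hy1 hy2
    rintro ⟨z, hz, rfl⟩
    exact hy3 ⟨z, ⟨⟨by rw [← h.col z hz, hy1], (h.fix_iff k hz).1 hy2⟩, hz⟩, rfl⟩
  have h2 : {a | c a = c x ∧ (α ^ k) a = a} ∩ S ⊂ {a | c a = c x ∧ (α ^ k) a = a} := by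
    refine ⟨Set.inter_subset_left, fun hs => hx (hs (show c x = c x ∧ _ from ⟨rfl, hk⟩)).2⟩
  have h3 := Set.ncard_le_ncard h1 (Set.toFinite _)
  have h4 := Set.ncard_lt_ncard h2 (Set.toFinite _)
  have h5 := Set.ncard_image_le (f := f)
    (Set.toFinite ({a | c a = c x ∧ (α ^ k) a = a} ∩ S))
  have h6 := hn k (c x)
  omega

lemma Good.to_left [Finite A] [Finite B] (h : Good α β c d S f)
    (hn : ∀ (k : ℕ) (v : T), {a | c a = v ∧ (α ^ k) a = a}.ncard =
      {b | d b = v ∧ (β ^ k) b = b}.ncard) {k : ℕ} {y : B} (hy : y ∉ f '' S)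
    (hk : (β ^ k) y = y) : ∃ x, x ∉ S ∧ (α ^ k) x = x := by
  by_contra hno
  push Not at hno
  have hS : {a | c a = d y ∧ (α ^ k) a = a} ⊆ S := by
    rintro x ⟨-, hx2⟩
    by_contra hx
    exact hno x hx hx2
  have h1 : f '' {a | c a = d y ∧ (α ^ k) a = a} ⊆ {b | d b = d y ∧ (β ^ k) b = b} := by
    rintro _ ⟨x, ⟨hx1, hx2⟩, rfl⟩
    have hx : x ∈ S := hS ⟨hx1, hx2⟩
    exact ⟨by rw [h.col x hx, hx1], (h.fix_iff k hx).2 hx2⟩
  have h2 : (f '' {a | c a = d y ∧ (α ^ k) a = a}).ncard =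
      {a | c a = d y ∧ (α ^ k) a = a}.ncard := (h.inj.mono hS).ncard_image
  have h3 := Set.eq_of_subset_of_ncard_le h1 (by rw [h2, hn]) (Set.toFinite _)
  have h4 : y ∈ {b | d b = d y ∧ (β ^ k) b = b} := ⟨rfl, hk⟩
  rw [← h3] at h4
  obtain ⟨x, hx, hxy⟩ := h4
  exact hy ⟨x, hS hx, hxy⟩

lemma Good.extend [Finite A] [Finite B] (h : Good α β c d S f)
    (hc : ∀ a, c (α a) = τ (c a)) (hd : ∀ b, d (β b) = τ (d b))
    (hn : ∀ (k : ℕ) (v : T), {a | c a = v ∧ (α ^ k) a = a}.ncard =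
      {b | d b = v ∧ (β ^ k) b = b}.ncard) (hS : S ≠ Set.univ) :
    ∃ S' f', S ⊂ S' ∧ Good α β c d S' f' := by
  -- an element outside `S` of least period
  have hne : (Sᶜ).Nonempty := Set.nonempty_compl.2 hS
  obtain ⟨a, ha, hmin⟩ := Set.exists_min_image Sᶜ (fun a => Function.minimalPeriod α a)
    (Set.toFinite _) hne
  set m := Function.minimalPeriod α a with hm
  have ham : (α ^ m) a = a := (per_iff α a m).2 dvd_rfl
  obtain ⟨b, hb, hbc, hbm⟩ := h.to_right hn ha ham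
  have hper : Function.minimalPeriod β b = m := by
    have h1 : Function.minimalPeriod β b ∣ m := (per_iff β b m).1 hbm
    obtain ⟨x, hx, hxk⟩ := h.to_left hn hb ((per_iff β b _).2 dvd_rfl)
    have h2 := (per_iff α x _).1 hxk
    have hbpos : 0 < Function.minimalPeriod β b := by
      rcases Nat.eq_zero_or_pos (Function.minimalPeriod β b) with h0 | h0
      · exfalso
        have h3 : Function.minimalPeriod β b ∣ orderOf β := by
          rw [← per_iff, pow_orderOf_eq_one, Equiv.Perm.one_apply]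
        rw [h0, zero_dvd_iff] at h3
        exact (orderOf_pos β).ne' h3
      · exact h0
    have h3 : m ≤ Function.minimalPeriod α x := hmin x hx
    have h4 := Nat.le_of_dvd hbpos h2
    have hmpos : 0 < m := by
      rcases Nat.eq_zero_or_pos m with h0 | h0
      · exfalso
        have h3 : m ∣ orderOf α := by
          rw [hm, ← per_iff, pow_orderOf_eq_one, Equiv.Perm.one_apply]
        rw [h0, zero_dvd_iff] at h3
        exact (orderOf_pos α).ne' h3
      · exact h0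
    have h5 := Nat.le_of_dvd hmpos h1
    omega
  have hk : ∀ k : ℕ, (α ^ k) a = a ↔ (β ^ k) b = b := fun k => by
    rw [per_iff, per_iff, hper]
  have hij := pow_eq_pow_iff α β hk
  -- the orbits are outside
  have hout : ∀ i : ℕ, (α ^ i) a ∉ S := by
    intro i hi
    obtain ⟨n, hn⟩ := exists_back α i
    have := h.pow_mem n hi
    rw [hn] at this
    exact ha this
  have hout' : ∀ i : ℕ, (β ^ i) b ∉ f '' S := by
    rintro i ⟨x, hx, hxi⟩
    obtain ⟨n, hn⟩ := exists_back β i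
    apply hb
    refine ⟨(α ^ n) x, h.pow_mem n hx, ?_⟩
    rw [h.pow_eqv n hx, hxi, hn]
  have hcol : ∀ i : ℕ, d ((β ^ i) b) = c ((α ^ i) a) := by
    intro i
    induction i with
    | zero => exact hbc
    | succ i ih =>
      rw [pow_succ', pow_succ', Equiv.Perm.mul_apply, Equiv.Perm.mul_apply, hc, hd, ih]
  -- the extension
  set f' : A → B := fun x => if x ∈ S then f x else
    if hx : ∃ i : ℕ, (α ^ i) a = x then (β ^ (Classical.choose hx)) b else f x with hf'
  have hf'S : ∀ x ∈ S, f' x = f x := fun x hx => by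
    simp only [hf', if_pos hx]
  have hf'a : ∀ i : ℕ, f' ((α ^ i) a) = (β ^ i) b := by
    intro i
    have hx : ∃ j : ℕ, (α ^ j) a = (α ^ i) a := ⟨i, rfl⟩
    simp only [hf', if_neg (hout i), dif_pos hx]
    exact (hij _ _).1 (Classical.choose_spec hx)
  refine ⟨S ∪ Set.range (fun i : ℕ => (α ^ i) a), f', ⟨Set.subset_union_left, fun hs =>
    ha (hs (Or.inr ⟨0, rfl⟩))⟩, ?_, ?_, ?_, ?_⟩
  · rintro x (hx | ⟨i, rfl⟩)
    · exact Or.inl (h.inv x hx)
    · exact Or.inr ⟨i + 1, by simp only [pow_succ', Equiv.Perm.mul_apply]⟩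
  · rintro x (hx | ⟨i, rfl⟩) y (hy | ⟨j, rfl⟩) hxy
    · rw [hf'S x hx, hf'S y hy] at hxy
      exact h.inj hx hy hxy
    · simp only at hxy
      rw [hf'S x hx, hf'a] at hxy
      exact absurd ⟨x, hx, hxy⟩ (hout' j)
    · simp only at hxy
      rw [hf'S y hy, hf'a] at hxy
      exact absurd ⟨y, hy, hxy.symm⟩ (hout' i)
    · simp only at hxy ⊢
      rw [hf'a, hf'a] at hxy
      exact (hij i j).2 hxy
  · rintro x (hx | ⟨i, rfl⟩)
    · rw [hf'S x hx, hf'S _ (h.inv x hx), h.eqv x hx]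
    · simp only
      rw [hf'a, ← Equiv.Perm.mul_apply, ← pow_succ', hf'a, ← Equiv.Perm.mul_apply, ← pow_succ']
  · rintro x (hx | ⟨i, rfl⟩)
    · rw [hf'S x hx, h.col x hx]
    · simp only
      rw [hf'a, hcol]

lemma exists_good [Finite A] [Finite B]
    (hc : ∀ a, c (α a) = τ (c a)) (hd : ∀ b, d (β b) = τ (d b))
    (hn : ∀ (k : ℕ) (v : T), {a | c a = v ∧ (α ^ k) a = a}.ncard =
      {b | d b = v ∧ (β ^ k) b = b}.ncard) :
    ∀ (n : ℕ) (S : Set A) (f : A → B), Good α β c d S f → (Sᶜ).ncard ≤ n →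
      ∃ f', Good α β c d Set.univ f' := by
  intro n
  induction n with
  | zero =>
    intro S f h h0
    have h1 : Sᶜ = ∅ := (Set.ncard_eq_zero (Set.toFinite _)).1 (Nat.le_zero.1 h0)
    rw [Set.compl_empty_iff] at h1
    exact ⟨f, h1 ▸ h⟩
  | succ n ih =>
    intro S f h h0
    by_cases hS : S = Set.univ
    · exact ⟨f, hS ▸ h⟩
    obtain ⟨S', f', hSS, hG⟩ := h.extend hc hd hn hS
    refine ih S' f' hG ?_
    have h1 : S'ᶜ ⊂ Sᶜ := compl_lt_compl_iff_lt.2 hSS
    have := Set.ncard_lt_ncard h1 (Set.toFinite _)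
    omega

end CYT

open CYT in
theorem cyt : AMe.T_CYT := by
  intro A B T _ _ α β c d τ hc hd hn
  rcases isEmpty_or_nonempty A with hA | hA
  · -- `B` is empty
    have hB : IsEmpty B := by
      constructor
      intro b
      have h1 := hn 0 (d b)
      have h2 : {a : A | c a = d b ∧ (α ^ 0) a = a} = ∅ := Set.eq_empty_of_isEmpty _
      rw [h2, Set.ncard_empty] at h1
      have h3 := (Set.ncard_eq_zero (Set.toFinite _)).1 h1.symm
      have h4 : b ∈ {b' : B | d b' = d b ∧ (β ^ 0) b' = b'} := ⟨rfl, rfl⟩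
      rw [h3] at h4
      exact h4
    exact ⟨Equiv.equivOfIsEmpty A B, fun a => isEmptyElim a, fun a => isEmptyElim a⟩
  have hB : Nonempty B := by
    obtain ⟨a⟩ := hA
    have h1 := hn 0 (c a)
    have h2 : 0 < {a' : A | c a' = c a ∧ (α ^ 0) a' = a'}.ncard := by
      rw [Set.ncard_pos (Set.toFinite _)]
      exact ⟨a, rfl, rfl⟩
    rw [h1, Set.ncard_pos (Set.toFinite _)] at h2
    obtain ⟨b, -⟩ := h2
    exact ⟨b⟩
  obtain ⟨b0⟩ := hB
  have h0 : Good α β c d ∅ (fun _ => b0) :=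
    ⟨fun x hx => hx.elim, fun x hx => hx.elim, fun x hx => hx.elim, fun x hx => hx.elim⟩
  obtain ⟨f, hf⟩ := exists_good hc hd hn _ ∅ _ h0 le_rfl
  have hinj : Function.Injective f := Set.injOn_univ.1 hf.inj
  have hsurj : Function.Surjective f := by
    intro y
    by_contra hy
    have hy' : y ∉ f '' Set.univ := by
      rintro ⟨x, -, hx⟩
      exact hy ⟨x, hx⟩
    obtain ⟨x, hx, -⟩ := hf.to_left hn (k := 0) hy' rfl
    exact hx (Set.mem_univ x)
  exact ⟨Equiv.ofBijective f ⟨hinj, hsurj⟩, fun a => hf.eqv a (Set.mem_univ a),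
    fun a => hf.col a (Set.mem_univ a)⟩

end Pool.Agent.H85.EA
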